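import Pool.Agent.TH42.LA.F

/-!
# Lang's inequality for almost all algebraic numbers, beyond the height
-/

set_option autoImplicit false

namespace Pool.Agent.Results.MP_c307ca_nt.AlmostAllBeyondHeight

open Finset Filter Polynomial
open Pool.Agent.Results.MP_c307ca_nt.AlmostAllToHeight (mem_box no_rat_root w w_anti w_eq
  polZ polZ_coeff)

/-- for one height a small constant leaves no exceptional number -/
theorem one_height (d : ℕ) (hd : 2 ≤ d) (κ ε : ℝ) (hε : 0 < ε) (H : ℕ) :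
    ∃ c : ℝ, 0 < c ∧ ∀ ξ : ℝ, (∃ P : Polynomial ℤ, P.natDegree = d ∧
      (∀ i, |P.coeff i| ≤ (H : ℤ)) ∧ Irreducible (P.map (Int.castRingHom ℚ)) ∧
      Polynomial.aeval ξ P = 0) →
      ∀ (p : ℤ) (q : ℕ), 2 ≤ q → (q : ℝ) ≤ (H : ℝ) ^ κ →
        c / ((q : ℝ) ^ 2 * Real.log q ^ (1 + ε)) < |ξ - (p : ℝ) / q| := by
  classical
  set U : Finset ℝ := (Pool.Agent.Results.MP_c307ca_nt.AlmostAllToHeight.box (d + 1)
    (H : ℤ)).biUnion (fun a => ((polZ a).map (Int.castRingHom ℝ)).roots.toFinset) with hU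
  set N : ℕ := ⌊(H : ℝ) ^ κ⌋₊ with hN
  set g : ℝ × ℕ → ℝ := fun z => |(z.2 : ℝ) * z.1 - round ((z.2 : ℝ) * z.1)| / z.2 with hg
  set F : Finset ℝ := insert 1 (((U ×ˢ Icc 2 N).image g).filter (fun x => 0 < x)) with hF
  have hFne : F.Nonempty := Finset.insert_nonempty _ _
  set c0 : ℝ := F.min' hFne with hc0
  have hc0pos : 0 < c0 := by
    have h1 := F.min'_mem hFne
    rw [← hc0, hF, mem_insert, mem_filter] at h1
    rcases h1 with h1 | h1
    · rw [h1]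
      exact one_pos
    · exact h1.2
  have hlog2 : 0 < Real.log 2 := Real.log_pos (by norm_num)
  refine ⟨c0 * Real.log 2 ^ (1 + ε), by positivity, ?_⟩
  rintro ξ ⟨P, hPd, hPH, hPirr, hξ⟩ p q hq2 hqκ
  have hq0 : (0 : ℝ) < q := by
    have : 0 < q := by omega
    exact_mod_cast this
  have hq2R : (2 : ℝ) ≤ q := by exact_mod_cast hq2
  have hP0 : P ≠ 0 := by
    intro h0
    rw [h0, Polynomial.natDegree_zero] at hPd
    omega
  have hξU : ξ ∈ U := by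
    rw [hU, Finset.mem_biUnion]
    refine ⟨fun i : Fin (d + 1) => P.coeff i, mem_box fun i => hPH i, ?_⟩
    rw [polZ_coeff d P hPd, Multiset.mem_toFinset, Polynomial.mem_roots', Polynomial.IsRoot,
        Polynomial.eval_map]
    refine ⟨?_, hξ⟩
    rw [Polynomial.map_ne_zero_iff (RingHom.injective_int (Int.castRingHom ℝ))]
    exact hP0
  have hqN : q ∈ Icc 2 N := by
    rw [mem_Icc]
    exact ⟨hq2, Nat.le_floor hqκ⟩
  have hgpos : 0 < g (ξ, q) := by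
    simp only [hg]
    apply div_pos _ hq0
    rw [abs_pos]
    intro h0
    have h1 : ξ = ((round ((q : ℝ) * ξ) : ℤ) : ℝ) / ((q : ℤ) : ℝ) := by
      push_cast
      rw [eq_div_iff hq0.ne']
      linarith
    have h2 := no_rat_root d hd P hPd hPirr (round ((q : ℝ) * ξ)) (q : ℤ)
    rw [← h1] at h2
    exact h2 hξ
  have h1 : c0 ≤ g (ξ, q) := by
    apply F.min'_le
    rw [hF, mem_insert, mem_filter, mem_image]
    right
    exact ⟨⟨(ξ, q), mem_product.mpr ⟨hξU, hqN⟩, rfl⟩, hgpos⟩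
  have h2 : g (ξ, q) ≤ |ξ - (p : ℝ) / q| := by
    simp only [hg]
    rw [div_le_iff₀ hq0]
    have h3 : |ξ - (p : ℝ) / q| * q = |(q : ℝ) * ξ - p| := by
      rw [← abs_of_pos hq0, ← abs_mul, abs_of_pos hq0]
      congr 1
      field_simp
    rw [h3]
    exact round_le _ _
  have h3 : c0 * Real.log 2 ^ (1 + ε) / ((q : ℝ) ^ 2 * Real.log q ^ (1 + ε)) < c0 := by
    have h4 : Real.log 2 ≤ Real.log q := Real.log_le_log (by norm_num) hq2R
    have h5 : Real.log 2 ^ (1 + ε) ≤ Real.log q ^ (1 + ε) :=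
      Real.rpow_le_rpow hlog2.le h4 (by linarith)
    have h6 : 0 < Real.log 2 ^ (1 + ε) := by positivity
    have h7 : 0 < Real.log q ^ (1 + ε) := lt_of_lt_of_le h6 h5
    rw [div_lt_iff₀ (by positivity)]
    apply mul_lt_mul_of_pos_left _ hc0pos
    have hq4 : (1 : ℝ) < (q : ℝ) ^ 2 := by nlinarith
    calc Real.log 2 ^ (1 + ε) ≤ Real.log q ^ (1 + ε) := h5
      _ = 1 * Real.log q ^ (1 + ε) := (one_mul _).symm
      _ < (q : ℝ) ^ 2 * Real.log q ^ (1 + ε) := mul_lt_mul_of_pos_right hq4 h7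
  linarith

/-- for finitely many heights a small constant leaves no exceptional number -/
theorem few_heights (d : ℕ) (hd : 2 ≤ d) (κ ε : ℝ) (hε : 0 < ε) (H0 : ℕ) :
    ∃ c : ℝ, 0 < c ∧ ∀ H : ℕ, H < H0 → ∀ ξ : ℝ, (∃ P : Polynomial ℤ, P.natDegree = d ∧
      (∀ i, |P.coeff i| ≤ (H : ℤ)) ∧ Irreducible (P.map (Int.castRingHom ℚ)) ∧
      Polynomial.aeval ξ P = 0) →
      ∀ (p : ℤ) (q : ℕ), 2 ≤ q → (q : ℝ) ≤ (H : ℝ) ^ κ →
        c / ((q : ℝ) ^ 2 * Real.log q ^ (1 + ε)) < |ξ - (p : ℝ) / q| := by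
  induction H0 with
  | zero => exact ⟨1, one_pos, fun H hH => absurd hH (Nat.not_lt_zero H)⟩
  | succ H0 ih =>
    obtain ⟨c1, hc1, h1⟩ := ih
    obtain ⟨c2, hc2, h2⟩ := one_height d hd κ ε hε H0
    refine ⟨min c1 c2, lt_min hc1 hc2, fun H hH ξ hξ p q hq hqκ => ?_⟩
    have hlog : 0 < Real.log q := Real.log_pos (by
      have : (2 : ℝ) ≤ q := by exact_mod_cast hq
      linarith)
    have hpos : 0 ≤ (q : ℝ) ^ 2 * Real.log q ^ (1 + ε) := by positivity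
    rcases Nat.lt_succ_iff_lt_or_eq.mp hH with h | h
    · exact lt_of_le_of_lt (div_le_div_of_nonneg_right (min_le_left _ _) hpos)
        (h1 H h ξ hξ p q hq hqκ)
    · rw [h] at hξ hqκ
      exact lt_of_le_of_lt (div_le_div_of_nonneg_right (min_le_right _ _) hpos)
        (h2 ξ hξ p q hq hqκ)

/-- **Lang's inequality for almost all algebraic numbers, beyond the height.** For every degree
`d ≥ 2`, every exponent `κ < 3/2` and all `ε, η > 0` there is `c > 0` such that for every height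
bound `H ≥ 1` all but at most `η H^(d+1)` of the real algebraic numbers of degree `d` and height
at most `H` satisfy `|ξ - p/q| > c / (q² (log q)^(1+ε))` for all integers `p` and all
`2 ≤ q ≤ H^κ`. -/
theorem result (d : ℕ) (hd : 2 ≤ d) (κ : ℝ) (hκ : κ < 3 / 2) (ε η : ℝ) (hε : 0 < ε)
    (hη : 0 < η) :
    ∃ c : ℝ, 0 < c ∧ ∀ H : ℕ, 1 ≤ H →
      {ξ : ℝ | (∃ P : Polynomial ℤ, P.natDegree = d ∧ (∀ i, |P.coeff i| ≤ (H : ℤ)) ∧
          Irreducible (P.map (Int.castRingHom ℚ)) ∧ Polynomial.aeval ξ P = 0) ∧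
        ∃ (p : ℤ) (q : ℕ), 2 ≤ q ∧ (q : ℝ) ≤ (H : ℝ) ^ κ ∧
          |ξ - (p : ℝ) / q| ≤ c / ((q : ℝ) ^ 2 * Real.log q ^ (1 + ε))}.Finite ∧
      ({ξ : ℝ | (∃ P : Polynomial ℤ, P.natDegree = d ∧ (∀ i, |P.coeff i| ≤ (H : ℤ)) ∧
          Irreducible (P.map (Int.castRingHom ℚ)) ∧ Polynomial.aeval ξ P = 0) ∧
        ∃ (p : ℤ) (q : ℕ), 2 ≤ q ∧ (q : ℝ) ≤ (H : ℝ) ^ κ ∧
          |ξ - (p : ℝ) / q| ≤ c / ((q : ℝ) ^ 2 * Real.log q ^ (1 + ε))}.ncard : ℝ) ≤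
        η * (H : ℝ) ^ (d + 1) := by
  obtain ⟨n, rfl⟩ : ∃ n, d = n + 2 := ⟨d - 2, by omega⟩
  obtain ⟨c1, hc1, hold⟩ := Pool.Agent.Results.MP_c307ca_nt.AlmostAllToHeight.result (n + 2) hd
    ε (η / 2) hε (half_pos hη)
  have hlog2 : 0 < Real.log 2 := Real.log_pos (by norm_num)
  set c2 : ℝ := min 1 (Real.log 2 ^ (1 + ε)) with hc2
  have hc20 : 0 < c2 := lt_min one_pos (by positivity)
  obtain ⟨H0, hH0⟩ := eventually_atTop.mp (Pool.Agent.TH42.LA.new_count n κ ε (η / 2) c2 hε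
    (half_pos hη) hκ hc20 (min_le_left _ _) (min_le_right _ _))
  obtain ⟨c3, hc3, hfew⟩ := few_heights (n + 2) hd κ ε hε H0
  refine ⟨min c1 (min c2 c3), lt_min hc1 (lt_min hc20 hc3), fun H hH1 => ?_⟩
  set c : ℝ := min c1 (min c2 c3) with hc
  have hcc1 : c ≤ c1 := min_le_left _ _
  have hcc2 : c ≤ c2 := (min_le_right _ _).trans (min_le_left _ _)
  have hcc3 : c ≤ c3 := (min_le_right _ _).trans (min_le_right _ _)
  have hpos : ∀ q : ℕ, 2 ≤ q → 0 < (q : ℝ) ^ 2 * Real.log q ^ (1 + ε) := by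
    intro q hq
    have h2 : (2 : ℝ) ≤ q := by exact_mod_cast hq
    have hlog : 0 < Real.log q := Real.log_pos (by linarith)
    positivity
  set S : Set ℝ := {ξ : ℝ | (∃ P : Polynomial ℤ, P.natDegree = n + 2 ∧
      (∀ i, |P.coeff i| ≤ (H : ℤ)) ∧
          Irreducible (P.map (Int.castRingHom ℚ)) ∧ Polynomial.aeval ξ P = 0) ∧
        ∃ (p : ℤ) (q : ℕ), 2 ≤ q ∧ (q : ℝ) ≤ (H : ℝ) ^ κ ∧
          |ξ - (p : ℝ) / q| ≤ c / ((q : ℝ) ^ 2 * Real.log q ^ (1 + ε))} with hS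
  have hHp : 0 ≤ η * (H : ℝ) ^ (n + 2 + 1) := by positivity
  rcases lt_or_ge H H0 with hHH | hHH
  · have hempty : S = ∅ := by
      rw [Set.eq_empty_iff_forall_notMem]
      rintro ξ ⟨hP, p, q, hq2, hqκ, hle⟩
      have h1 := hfew H hHH ξ hP p q hq2 hqκ
      have h2 : c / ((q : ℝ) ^ 2 * Real.log q ^ (1 + ε)) ≤
          c3 / ((q : ℝ) ^ 2 * Real.log q ^ (1 + ε)) :=
        div_le_div_of_nonneg_right hcc3 (hpos q hq2).le
      linarith
    rw [hempty]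
    exact ⟨Set.finite_empty, by simpa using hHp⟩
  · obtain ⟨hf1, hn1⟩ := hold H hH1
    obtain ⟨hf2, hn2⟩ := hH0 H hHH
    set S1 : Set ℝ := {ξ : ℝ | (∃ P : Polynomial ℤ, P.natDegree = n + 2 ∧
      (∀ i, |P.coeff i| ≤ (H : ℤ)) ∧
          Irreducible (P.map (Int.castRingHom ℚ)) ∧ Polynomial.aeval ξ P = 0) ∧
        ∃ (p : ℤ) (q : ℕ), 2 ≤ q ∧ q ≤ H ∧
          |ξ - (p : ℝ) / q| ≤ c1 / ((q : ℝ) ^ 2 * Real.log q ^ (1 + ε))} with hS1
    set S2 : Set ℝ := {ξ : ℝ | (∃ P : Polynomial ℤ, P.natDegree = n + 2 ∧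
      (∀ i, |P.coeff i| ≤ (H : ℤ)) ∧
          Irreducible (P.map (Int.castRingHom ℚ)) ∧ Polynomial.aeval ξ P = 0) ∧
        ∃ (p : ℤ) (q : ℕ), H < q ∧ (q : ℝ) ≤ (H : ℝ) ^ κ ∧
          |ξ - (p : ℝ) / q| ≤ c2 * w ε q} with hS2
    have hsub : S ⊆ S1 ∪ S2 := by
      rintro ξ ⟨hP, p, q, hq2, hqκ, hle⟩
      rcases le_or_gt q H with h | h
      · left
        exact ⟨hP, p, q, hq2, h, hle.trans (div_le_div_of_nonneg_right hcc1 (hpos q hq2).le)⟩
      · right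
        refine ⟨hP, p, q, h, hqκ, ?_⟩
        rw [← w_eq ε c2 q hq2]
        exact hle.trans (div_le_div_of_nonneg_right hcc2 (hpos q hq2).le)
    refine ⟨(hf1.union hf2).subset hsub, ?_⟩
    have h1 : S.ncard ≤ S1.ncard + S2.ncard :=
      (Set.ncard_le_ncard hsub (hf1.union hf2)).trans (Set.ncard_union_le _ _)
    have h2 : (S.ncard : ℝ) ≤ (S1.ncard : ℝ) + S2.ncard := by exact_mod_cast h1
    have h3 : (n + 2 + 1 : ℕ) = n + 3 := rfl
    rw [h3] at hn1 ⊢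
    linarith

end Pool.Agent.Results.MP_c307ca_nt.AlmostAllBeyondHeight
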