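import Pool.Agent.TH42.LD.C
import Pool.Agent.W472.AC.RothThm

/-!
# Lang's inequality for almost all division points of an algebraic number
-/

set_option autoImplicit false

namespace Pool.Agent.Results.MP_c307ca_nt.DivisionPoints

open Finset Filter

open Classical in
/-- **Lang's inequality for almost all division points.** Let `ξ` be any real algebraic irrational
number. For all `κ` and all `ε, η > 0` there is `c > 0` such that for every `N ≥ 1` all but at most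
`η σ(N)` of the `N` numbers `(ξ + b) / N`, `0 ≤ b < N` (the solutions of `N α ≡ ξ` modulo one, up to
integers), satisfy `|α - p/q| > c / (q² (log q)^(1+ε))` for all integers `p` and all
`2 ≤ q ≤ N^κ`; here `σ(N)` is the sum of the divisors of `N`. -/
theorem result (ξ : ℝ) (halg : IsAlgebraic ℚ ξ) (hirr : Irrational ξ) (κ ε η : ℝ) (hε : 0 < ε)
    (hη : 0 < η) :
    ∃ c : ℝ, 0 < c ∧ ∀ N : ℕ, 1 ≤ N →
      (((range N).filter (fun b : ℕ => ∃ (p : ℤ) (q : ℕ), 2 ≤ q ∧ (q : ℝ) ≤ (N : ℝ) ^ κ ∧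
        |(ξ + b) / N - (p : ℝ) / q| ≤ c / ((q : ℝ) ^ 2 * Real.log q ^ (1 + ε)))).card : ℝ) ≤
      η * ∑ g ∈ N.divisors, (g : ℝ) := by
  have hroth : ∀ τ : ℝ, 0 < τ → ∃ c : ℝ, 0 < c ∧ ∀ q : ℕ, 1 ≤ q → ∀ p : ℤ,
      c ≤ (q : ℝ) ^ (1 + τ) * |q * ξ - p| := fun τ hτ =>
    Pool.Agent.W472.AC.roth ξ halg hirr τ hτ
  have hlog2 : 0 < Real.log 2 := Real.log_pos (by norm_num)
  set Z : ℝ := ∑' n : ℕ, 1 / ((n : ℝ) * Real.log 2) ^ (1 + ε) with hZ
  have hZ0 : 0 ≤ Z := tsum_nonneg fun n => by positivity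
  set c1 : ℝ := min (Real.log 2 ^ (1 + ε)) (η / (64 * (Z + 1))) with hc1
  have hc10 : 0 < c1 := lt_min (by positivity) (by positivity)
  have hc1Z : 32 * c1 * Z ≤ η / 2 := by
    have h1 : c1 ≤ η / (64 * (Z + 1)) := min_le_right _ _
    calc 32 * c1 * Z ≤ 32 * (η / (64 * (Z + 1))) * (Z + 1) := by
          refine mul_le_mul (mul_le_mul_of_nonneg_left h1 (by norm_num)) (by linarith) hZ0
            (by positivity)
      _ = η / 2 := by
          field_simp
          norm_num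
  obtain ⟨N0, hN0⟩ := eventually_atTop.mp (Pool.Agent.TH42.LD.all_scales ξ hroth (max κ 1) ε η c1
    (le_max_right _ _) hε hη hc10 (min_le_left _ _) hc1Z)
  obtain ⟨c2, hc2, hfew⟩ := Pool.Agent.TH42.LD.few_N ξ hirr κ ε hε N0
  refine ⟨min c1 c2, lt_min hc10 hc2, fun N hN => ?_⟩
  have hpos : ∀ q : ℕ, 2 ≤ q → 0 < (q : ℝ) ^ 2 * Real.log q ^ (1 + ε) := by
    intro q hq
    have h2 : (2 : ℝ) ≤ q := by exact_mod_cast hq
    have hlog : 0 < Real.log q := Real.log_pos (by linarith)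
    positivity
  have hNR1 : (1 : ℝ) ≤ N := by exact_mod_cast hN
  rcases lt_or_ge N N0 with h | h
  · have hempty : (range N).filter (fun b : ℕ => ∃ (p : ℤ) (q : ℕ), 2 ≤ q ∧
        (q : ℝ) ≤ (N : ℝ) ^ κ ∧ |(ξ + b) / N - (p : ℝ) / q| ≤
          min c1 c2 / ((q : ℝ) ^ 2 * Real.log q ^ (1 + ε))) = ∅ := by
      rw [Finset.filter_eq_empty_iff]
      rintro b hb ⟨p, q, hq2, hqκ, hle⟩
      rw [mem_range] at hb
      have h1 := hfew N hN h b hb p q hq2 hqκ
      have h2 := div_le_div_of_nonneg_right (min_le_right c1 c2) (hpos q hq2).le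
      linarith
    rw [hempty, Finset.card_empty, Nat.cast_zero]
    positivity
  · refine le_trans ?_ (hN0 N h)
    have hsub : (range N).filter (fun b : ℕ => ∃ (p : ℤ) (q : ℕ), 2 ≤ q ∧
        (q : ℝ) ≤ (N : ℝ) ^ κ ∧ |(ξ + b) / N - (p : ℝ) / q| ≤
          min c1 c2 / ((q : ℝ) ^ 2 * Real.log q ^ (1 + ε))) ⊆
        (range N).filter (fun b : ℕ => ∃ (p : ℤ) (q : ℕ), 2 ≤ q ∧
        (q : ℝ) ≤ (N : ℝ) ^ (max κ 1) ∧ |(ξ + b) / N - (p : ℝ) / q| ≤
          c1 / ((q : ℝ) ^ 2 * Real.log q ^ (1 + ε))) := by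
      intro b hb
      rw [mem_filter] at hb ⊢
      obtain ⟨hbN, p, q, hq2, hqκ, hle⟩ := hb
      refine ⟨hbN, p, q, hq2, hqκ.trans ?_, hle.trans ?_⟩
      · exact Real.rpow_le_rpow_of_exponent_le hNR1 (le_max_left _ _)
      · exact div_le_div_of_nonneg_right (min_le_left _ _) (hpos q hq2).le
    exact_mod_cast Finset.card_le_card hsub

end Pool.Agent.Results.MP_c307ca_nt.DivisionPoints
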