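import Pool.Agent.H49.LM.Main
import Pool.Agent.W472.AC.RothThm

/-!
# Lang's inequality for almost all integer multiples and translates of an algebraic number

Let `ξ` be any real algebraic irrational number. For almost all integers `m` in an interval of
length `N` the inequality `|α - p/q| > c / (q² (log q)^(1+ε))` of Lang's conjecture holds for
`α = m ξ + β` and all `2 ≤ q ≤ N^κ`, where `κ < 1`, and `β` is an arbitrary real number.

Method: for every `q` the number `q ξ` has a rational approximation with denominator `r(q) ≤ N` and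
error `1 / (N r(q))`; this gives the right upper bound for the number of `m` up to `O(N / r(q))`.
Here `q r(q) ξ` is within `1 / N` of an integer; by Roth's theorem the integers with this property
are at least `N^(1-τ)` apart, and each is a multiple of at most `N^τ` integers `q`, so the sum of
the errors `N / r(q)` over `q ≤ N^κ` is `N^(κ+O(τ))`.
-/

set_option autoImplicit false

namespace Pool.Agent.Results.MP_c307ca_nt.MultiplesAndTranslates

open Finset Filter

open Classical in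
/-- **Lang's inequality for almost all multiples and translates of an algebraic number.** Let `ξ` be
a real algebraic irrational number, `κ < 1` and `ε, η > 0`. There is `c > 0` such that
(1) for every `N ≥ 1` all but at most `η N` of the numbers `α = m ξ`, `1 ≤ m ≤ N`, satisfy
`|α - p/q| > c / (q² (log q)^(1+ε))` for all integers `p` and all `2 ≤ q ≤ N^κ`;
(2) for every `N ≥ N₀` and every real `β` the same holds for all but at most `η N` of the numbers
`α = m ξ + β`, `0 ≤ m < N`. -/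
theorem result (ξ : ℝ) (halg : IsAlgebraic ℚ ξ) (hirr : Irrational ξ) (κ ε η : ℝ) (hκ : κ < 1)
    (hε : 0 < ε) (hη : 0 < η) :
    ∃ c : ℝ, 0 < c ∧
      (∀ N : ℕ, 1 ≤ N → (((Icc 1 N).filter (fun m : ℕ => ∃ (p : ℤ) (q : ℕ), 2 ≤ q ∧
        (q : ℝ) ≤ (N : ℝ) ^ κ ∧
        |(m : ℝ) * ξ - (p : ℝ) / q| ≤ c / ((q : ℝ) ^ 2 * Real.log q ^ (1 + ε)))).card : ℝ) ≤
          η * N) ∧
      ∃ N0 : ℕ, ∀ N : ℕ, N0 ≤ N → ∀ β : ℝ, (((range N).filter (fun m : ℕ => ∃ (p : ℤ) (q : ℕ),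
        2 ≤ q ∧ (q : ℝ) ≤ (N : ℝ) ^ κ ∧
        |(m : ℝ) * ξ + β - (p : ℝ) / q| ≤ c / ((q : ℝ) ^ 2 * Real.log q ^ (1 + ε)))).card : ℝ) ≤
          η * N := by
  have hroth : ∀ τ : ℝ, 0 < τ → ∃ c : ℝ, 0 < c ∧ ∀ q : ℕ, 1 ≤ q → ∀ p : ℤ,
      c ≤ (q : ℝ) ^ (1 + τ) * |q * ξ - p| := fun τ hτ =>
    Pool.Agent.W472.AC.roth ξ halg hirr τ hτ
  have hlog2 : 0 < Real.log 2 := Real.log_pos (by norm_num)
  obtain ⟨Z, hZ⟩ := Pool.Agent.H49.LM.log_series ε hε
  have hZ0 : 0 ≤ Z := by simpa using hZ 0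
  set c0 : ℝ := η / (8 * (Z + 1)) with hc0
  have hc00 : 0 < c0 := by positivity
  have hcZ : 4 * c0 * Z ≤ η / 2 := by
    calc 4 * c0 * Z ≤ 4 * c0 * (Z + 1) := by nlinarith
      _ = η / 2 := by
          rw [hc0]
          field_simp
          norm_num
  set κ' : ℝ := max κ (1 / 2) with hκ'
  have hκ'1 : κ' < 1 := max_lt hκ (by norm_num)
  have hκ'0 : 0 < κ' := lt_of_lt_of_le (by norm_num) (le_max_right κ (1 / 2))
  obtain ⟨N1, hN1⟩ := Pool.Agent.H49.LM.main_large ξ hroth κ' η c0 Z hκ'0 hκ'1 hη hc00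
    (fun q => 1 / ((q : ℝ) * Real.log q ^ (1 + ε)))
    (fun q => by
      have : 0 ≤ Real.log (q : ℝ) := Real.log_natCast_nonneg q
      positivity) hZ hcZ
  obtain ⟨c1, hc1, hr1⟩ := hroth 1 one_pos
  set N0 : ℕ := max N1 1 with hN0
  have hN01 : (1 : ℝ) ≤ N0 := by exact_mod_cast le_max_right N1 1
  set c : ℝ := min c0 (Real.log 2 ^ (1 + ε) * (c1 / (N0 : ℝ) ^ 5)) with hc
  have hcpos : 0 < c := lt_min hc00 (by positivity)
  have hpos : ∀ q : ℕ, 2 ≤ q → 0 < (q : ℝ) ^ 2 * Real.log q ^ (1 + ε) := by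
    intro q hq
    have h2 : (2 : ℝ) ≤ q := by exact_mod_cast hq
    have hlog : 0 < Real.log q := Real.log_pos (by linarith)
    positivity
  have hlarge : ∀ N : ℕ, N0 ≤ N → ∀ β : ℝ, (((range N).filter (fun m : ℕ => ∃ (p : ℤ) (q : ℕ),
        2 ≤ q ∧ (q : ℝ) ≤ (N : ℝ) ^ κ ∧
        |(m : ℝ) * ξ + β - (p : ℝ) / q| ≤ c / ((q : ℝ) ^ 2 * Real.log q ^ (1 + ε)))).card : ℝ) ≤
          η * N := by
    intro N hN β
    have hNR1 : (1 : ℝ) ≤ N := by
      have : 1 ≤ N := (le_max_right N1 1).trans hN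
      exact_mod_cast this
    refine le_trans ?_ (hN1 N ((le_max_left N1 1).trans hN) β)
    have hsub : (range N).filter (fun m : ℕ => ∃ (p : ℤ) (q : ℕ), 2 ≤ q ∧
        (q : ℝ) ≤ (N : ℝ) ^ κ ∧
        |(m : ℝ) * ξ + β - (p : ℝ) / q| ≤ c / ((q : ℝ) ^ 2 * Real.log q ^ (1 + ε))) ⊆
        (range N).filter (fun m : ℕ => ∃ (p : ℤ) (q : ℕ), 2 ≤ q ∧ (q : ℝ) ≤ (N : ℝ) ^ κ' ∧
        |(m : ℝ) * ξ + β - (p : ℝ) / q| ≤
          c0 * (1 / ((q : ℝ) * Real.log q ^ (1 + ε))) / q) := by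
      intro m hm
      rw [mem_filter] at hm ⊢
      obtain ⟨hmN, p, q, hq2, hqκ, hle⟩ := hm
      refine ⟨hmN, p, q, hq2, hqκ.trans ?_, hle.trans ?_⟩
      · exact Real.rpow_le_rpow_of_exponent_le hNR1 (le_max_left _ _)
      · have h2 : (2 : ℝ) ≤ q := by exact_mod_cast hq2
        have e1 : c0 * (1 / ((q : ℝ) * Real.log q ^ (1 + ε))) / q =
            c0 / ((q : ℝ) ^ 2 * Real.log q ^ (1 + ε)) := by
          rw [mul_one_div, div_div]
          congr 1
          ring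
        rw [e1]
        exact div_le_div_of_nonneg_right (min_le_left _ _) (hpos q hq2).le
    exact_mod_cast card_le_card hsub
  refine ⟨c, hcpos, ?_, N0, hlarge⟩
  intro N hN
  have hNR1 : (1 : ℝ) ≤ N := by exact_mod_cast hN
  rcases lt_or_ge N N0 with h | h
  · -- small `N`: no exceptions
    have hempty : (Icc 1 N).filter (fun m : ℕ => ∃ (p : ℤ) (q : ℕ), 2 ≤ q ∧
        (q : ℝ) ≤ (N : ℝ) ^ κ ∧
        |(m : ℝ) * ξ - (p : ℝ) / q| ≤ c / ((q : ℝ) ^ 2 * Real.log q ^ (1 + ε))) = ∅ := by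
      rw [Finset.filter_eq_empty_iff]
      rintro m hm ⟨p, q, hq2, hqκ, hle⟩
      rw [mem_Icc] at hm
      have hq2' : (2 : ℝ) ≤ q := by exact_mod_cast hq2
      have hq0 : (0 : ℝ) < q := by linarith
      have hlogq : Real.log 2 ≤ Real.log q := Real.log_le_log (by norm_num) hq2'
      have hm1 : (1 : ℝ) ≤ m := by exact_mod_cast hm.1
      have hNN : (N : ℝ) ≤ N0 := by exact_mod_cast h.le
      have hmN : (m : ℝ) ≤ N0 := by
        have : (m : ℝ) ≤ N := by exact_mod_cast hm.2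
        linarith
      have hqN : (q : ℝ) ≤ N0 := by
        calc (q : ℝ) ≤ (N : ℝ) ^ κ := hqκ
          _ ≤ (N : ℝ) ^ (1 : ℝ) := Real.rpow_le_rpow_of_exponent_le hNR1 hκ.le
          _ = N := Real.rpow_one _
          _ ≤ N0 := hNN
      have h1 := hr1 (m * q) (Nat.mul_pos hm.1 (by omega)) p
      have e1 : |((m * q : ℕ) : ℝ) * ξ - p| = q * |(m : ℝ) * ξ - (p : ℝ) / q| := by
        have : ((m * q : ℕ) : ℝ) * ξ - p = q * ((m : ℝ) * ξ - (p : ℝ) / q) := by
          push_cast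
          field_simp
        rw [this, abs_mul, abs_of_pos hq0]
      rw [e1] at h1
      have e2 : ((m * q : ℕ) : ℝ) ^ ((1 : ℝ) + 1) = ((m : ℝ) * q) ^ 2 := by
        rw [show (1 : ℝ) + 1 = ((2 : ℕ) : ℝ) by norm_num, Real.rpow_natCast]
        push_cast
        rfl
      rw [e2] at h1
      have h2 : |(m : ℝ) * ξ - (p : ℝ) / q| ≤ c1 / (N0 : ℝ) ^ 5 / 4 := by
        refine hle.trans ?_
        calc c / ((q : ℝ) ^ 2 * Real.log q ^ (1 + ε))
            ≤ c / (4 * Real.log 2 ^ (1 + ε)) := by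
              apply div_le_div_of_nonneg_left hcpos.le (by positivity)
              apply mul_le_mul (by nlinarith) _ (by positivity) (by positivity)
              exact Real.rpow_le_rpow hlog2.le hlogq (by linarith)
          _ ≤ Real.log 2 ^ (1 + ε) * (c1 / (N0 : ℝ) ^ 5) / (4 * Real.log 2 ^ (1 + ε)) := by
              apply div_le_div_of_nonneg_right (min_le_right _ _) (by positivity)
          _ = c1 / (N0 : ℝ) ^ 5 / 4 := by
              field_simp
      have h3 : ((m : ℝ) * q) ^ 2 * (q * |(m : ℝ) * ξ - (p : ℝ) / q|) ≤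
          ((N0 : ℝ) * N0) ^ 2 * (N0 * (c1 / (N0 : ℝ) ^ 5 / 4)) := by
        gcongr
      have e3 : ((N0 : ℝ) * N0) ^ 2 * (N0 * (c1 / (N0 : ℝ) ^ 5 / 4)) = c1 / 4 := by
        field_simp
      rw [e3] at h3
      linarith
    rw [hempty, Finset.card_empty, Nat.cast_zero]
    positivity
  · refine le_trans ?_ (hlarge N h ξ)
    have hcard : ((Icc 1 N).filter (fun m : ℕ => ∃ (p : ℤ) (q : ℕ), 2 ≤ q ∧
        (q : ℝ) ≤ (N : ℝ) ^ κ ∧
        |(m : ℝ) * ξ - (p : ℝ) / q| ≤ c / ((q : ℝ) ^ 2 * Real.log q ^ (1 + ε)))).card ≤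
        ((range N).filter (fun m : ℕ => ∃ (p : ℤ) (q : ℕ), 2 ≤ q ∧ (q : ℝ) ≤ (N : ℝ) ^ κ ∧
        |(m : ℝ) * ξ + ξ - (p : ℝ) / q| ≤ c / ((q : ℝ) ^ 2 * Real.log q ^ (1 + ε)))).card := by
      apply Finset.card_le_card_of_injOn (fun m => m - 1)
      · intro m hm
        rw [Finset.mem_coe, mem_filter, mem_Icc] at hm
        rw [Finset.mem_coe, mem_filter, mem_range]
        obtain ⟨⟨hm1, hmN⟩, p, q, hq2, hqκ, hle⟩ := hm
        refine ⟨by show m - 1 < N; omega, p, q, hq2, hqκ, ?_⟩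
        have e1 : ((m - 1 : ℕ) : ℝ) * ξ + ξ = (m : ℝ) * ξ := by
          rw [Nat.cast_sub hm1, Nat.cast_one]
          ring
        simp only
        rw [e1]
        exact hle
      · intro m hm m' hm' hmm
        rw [Finset.mem_coe, mem_filter, mem_Icc] at hm hm'
        simp only at hmm
        have h1 := hm.1.1
        have h2 := hm'.1.1
        omega
    exact_mod_cast hcard

end Pool.Agent.Results.MP_c307ca_nt.MultiplesAndTranslates
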